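import Mathlib

/-!
Definitions for the cyclovariety problem, following the problem file literally.
-/

namespace Pool.Agent.Work.MP_086516_nt

noncomputable section

/-- `ζ_k = e^{2πi/k}`. -/
def zetaK (k : ℕ) : ℂ := Complex.exp (2 * Real.pi * Complex.I / k)

/-- The set `A_k ⊂ ℤ^d`, `d = φ(k)`: the coefficient vectors `a` for which
`∑_j a_j ζ_k^j` is a `k`-th root of unity. -/
def coeffSet (k : ℕ) : Set (Fin (Nat.totient k) → ℤ) :=
  {a | (∑ j, (a j : ℂ) * zetaK k ^ (j : ℕ)) ^ k = 1}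

/-- The value at `x` of the Laurent polynomial `F_k(x) = ∑_{a ∈ A_k} x^a`
(`A_k` is finite with `k` elements, see `coeffSet_ncard`). -/
def cycloPoly (k : ℕ) (x : Fin (Nat.totient k) → ℂ) : ℂ :=
  ∑ᶠ a ∈ coeffSet k, ∏ j, x j ^ (a j)

/-- The complex points of the cyclovariety `C_k ⊂ G_m^{d+1}`, `d = φ(k)`: the points
`(x_0, x)` with nonzero coordinates and `x_0 + F_k(x) = 0`. -/
def cyclovariety (k : ℕ) : Set (Fin (Nat.totient k + 1) → ℂ) :=
  {z | (∀ i, z i ≠ 0) ∧ z 0 + cycloPoly k (fun j => z j.succ) = 0}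

/-- The unit torus `𝕋^n` in `(ℂ^*)^n`. -/
def unitTorus (n : ℕ) : Set (Fin n → ℂ) := {z | ∀ i, ‖z i‖ = 1}

end

end Pool.Agent.Work.MP_086516_nt
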