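import Mathlib

/-!
The topological argument: a continuous `ℤ^d`-periodic function on `ℝ^d` with the right symmetries
has a zero.
-/

open Set Topology

namespace Pool.Agent.Work.MP_086516_nt

variable {d : ℕ}

/-- The real vector of an integer vector. -/
def cst (n : Fin d → ℤ) : Fin d → ℝ := fun j => (n j : ℝ)

lemma cst_add (n m : Fin d → ℤ) : cst (n + m) = cst n + cst m := by
  ext j; simp [cst]

lemma cst_zero : cst (0 : Fin d → ℤ) = 0 := by
  ext j; simp [cst]

/-- Existence of a continuous logarithm on `ℝ^d`. -/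
lemma exists_log (f : (Fin d → ℝ) → ℂ) (hf : Continuous f) (hne : ∀ t, f t ≠ 0) (a : ℂ)
    (ha : Complex.exp a = f 0) :
    ∃ g : (Fin d → ℝ) → ℂ, Continuous g ∧ (∀ t, Complex.exp (g t) = f t) ∧ g 0 = a := by
  have key := Complex.isCoveringMapOn_exp.existsUnique_continuousMap_lifts
    (⟨f, hf⟩ : C((Fin d → ℝ), ℂ)) (a₀ := 0) (e₀ := a) (by simpa using ha)
    (fun t => by simpa using hne t)
  obtain ⟨G, ⟨h0, h1⟩, -⟩ := key
  exact ⟨G, G.continuous, fun t => congrFun h1 t, h0⟩

/-- Two continuous logarithms of the same function differ by a constant. -/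
lemma log_diff {g₁ g₂ : (Fin d → ℝ) → ℂ} (h1 : Continuous g₁) (h2 : Continuous g₂)
    (h : ∀ t, Complex.exp (g₁ t) = Complex.exp (g₂ t)) (s t : Fin d → ℝ) :
    g₁ s - g₂ s = g₁ t - g₂ t := by
  have hT : IsDiscrete ((AddSubgroup.zmultiples (2 * Real.pi * Complex.I : ℂ)) : Set ℂ) :=
    ⟨NormedSpace.discreteTopology_zmultiples _⟩
  refine isPreconnected_univ.constant_of_mapsTo hT (h1.sub h2).continuousOn (fun z _ => ?_)
    (mem_univ _) (mem_univ _)
  obtain ⟨n, hn⟩ := Complex.exp_eq_exp_iff_exists_int.mp (h z)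
  rw [SetLike.mem_coe, AddSubgroup.mem_zmultiples_iff]
  refine ⟨n, ?_⟩
  rw [Pi.sub_apply, hn]
  simp

theorem exists_zero (f : (Fin d → ℝ) → ℂ) (hf : Continuous f)
    (V : (Fin d → ℝ) → (Fin d → ℝ)) (hV : Continuous V) (hV0 : V 0 = 0)
    (hfV : ∀ t, f (V t) = f t)
    (hint : ∀ n : Fin d → ℤ, ∃ m : Fin d → ℤ, V (cst n) = cst m)
    (hper : ∀ t (n : Fin d → ℤ), f (t + cst n) = f t)
    (k : ℕ) (hk : 0 < k)
    (hsum : ∀ n : Fin d → ℤ, ∑ i ∈ Finset.range k, V^[i] (cst n) = 0)
    (hconj : ∀ t, f (-t) = (starRingEnd ℂ) (f t))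
    (hpos : ∃ r : ℝ, 0 < r ∧ f 0 = r)
    (havg : ∑ e : Fin d → Fin 2, f (fun j => ((e j : ℕ) : ℝ) / 2) = 0) :
    ∃ t, f t = 0 := by
  by_contra hcon
  push Not at hcon
  obtain ⟨r, hr, hf0⟩ := hpos
  obtain ⟨g, hg, hexp, hg0⟩ := exists_log f hf hcon (Real.log r : ℂ) (by
    rw [← Complex.ofReal_exp, Real.exp_log hr, hf0])
  -- translation by lattice vectors
  have htr : ∀ (n : Fin d → ℤ) (t : Fin d → ℝ), g (t + cst n) - g t = g (cst n) - g 0 := by
    intro n t
    have := log_diff (g₁ := fun t => g (t + cst n)) (g₂ := g) (by fun_prop) hg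
      (fun s => by rw [hexp, hexp, hper]) t 0
    simpa using this
  -- invariance under V
  have hgV : ∀ t, g (V t) = g t := by
    intro t
    have := log_diff (g₁ := fun t => g (V t)) (g₂ := g) (by fun_prop) hg
      (fun s => by rw [hexp, hexp, hfV]) t 0
    rw [hV0, sub_self] at this
    exact sub_eq_zero.mp this
  -- iterates of V on lattice vectors
  have hiter : ∀ (n : Fin d → ℤ) (i : ℕ), ∃ m : Fin d → ℤ, V^[i] (cst n) = cst m := by
    intro n i
    induction i with
    | zero => exact ⟨n, rfl⟩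
    | succ i ih =>
      obtain ⟨m, hm⟩ := ih
      rw [Function.iterate_succ_apply', hm]
      exact hint m
  have hgiter : ∀ (t : Fin d → ℝ) (i : ℕ), g (V^[i] t) = g t := by
    intro t i
    induction i with
    | zero => rfl
    | succ i ih => rw [Function.iterate_succ_apply', hgV, ih]
  have hpart : ∀ (n : Fin d → ℤ) (m : ℕ), (∃ l : Fin d → ℤ,
      ∑ i ∈ Finset.range m, V^[i] (cst n) = cst l) ∧
      g (∑ i ∈ Finset.range m, V^[i] (cst n)) - g 0 = m * (g (cst n) - g 0) := by
    intro n m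
    induction m with
    | zero => exact ⟨⟨0, by simp [cst_zero]⟩, by simp⟩
    | succ m ih =>
      obtain ⟨⟨l, hl⟩, h2⟩ := ih
      obtain ⟨m', hm'⟩ := hiter n m
      refine ⟨⟨l + m', ?_⟩, ?_⟩
      · rw [Finset.sum_range_succ, hl, hm', cst_add]
      · rw [Finset.sum_range_succ]
        have h3 := htr m' (∑ i ∈ Finset.range m, V^[i] (cst n))
        have h4 := hgiter (cst n) m
        rw [hm'] at h4 ⊢
        rw [h4] at h3
        push_cast
        linear_combination h3 + h2
  have hw : ∀ n : Fin d → ℤ, g (cst n) = g 0 := by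
    intro n
    have := (hpart n k).2
    rw [hsum, sub_self] at this
    have hk' : (k : ℂ) ≠ 0 := by exact_mod_cast hk.ne'
    have h2 := (mul_eq_zero.mp this.symm).resolve_left hk'
    exact sub_eq_zero.mp h2
  have hperg : ∀ (n : Fin d → ℤ) (t : Fin d → ℝ), g (t + cst n) = g t := by
    intro n t
    have := htr n t
    rw [hw n, sub_self] at this
    exact sub_eq_zero.mp this
  have hconjg : ∀ t, g (-t) = (starRingEnd ℂ) (g t) := by
    intro t
    have := log_diff (g₁ := fun t => g (-t)) (g₂ := fun t => (starRingEnd ℂ) (g t))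
      (by fun_prop) (by fun_prop)
      (fun s => by
        rw [hexp, hconj, Complex.exp_conj, hexp]) t 0
    simp only [neg_zero, hg0, Complex.conj_ofReal, sub_self] at this
    exact sub_eq_zero.mp this
  have hhalf : ∀ e : Fin d → Fin 2, 0 < (f (fun j => ((e j : ℕ) : ℝ) / 2)).re := by
    intro e
    set t : Fin d → ℝ := fun j => ((e j : ℕ) : ℝ) / 2 with ht
    have h1 : -t + cst (fun j => ((e j : ℕ) : ℤ)) = t := by
      ext j; simp [ht, cst]; ring
    have h2 : g t = (starRingEnd ℂ) (g t) := by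
      have h3 := hperg (fun j => ((e j : ℕ) : ℤ)) (-t)
      rw [h1, hconjg] at h3
      exact h3
    have h4 : ∃ x : ℝ, g t = x := by
      refine ⟨(g t).re, ?_⟩
      exact (Complex.conj_eq_iff_re.mp h2.symm).symm
    obtain ⟨x, hx⟩ := h4
    rw [← hexp, hx, ← Complex.ofReal_exp, Complex.ofReal_re]
    exact Real.exp_pos x
  have hlt : 0 < (∑ e : Fin d → Fin 2, f (fun j => ((e j : ℕ) : ℝ) / 2)).re := by
    rw [Complex.re_sum]
    apply Finset.sum_pos (fun e _ => hhalf e) Finset.univ_nonempty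
  rw [havg] at hlt
  simp at hlt

end Pool.Agent.Work.MP_086516_nt
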