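import Mathlib
import Pool.Agent.Work.MP_086516_nt.Defs
import Pool.Agent.Work.MP_086516_nt.Topo

/-!
The algebraic part: the coefficient vectors of the roots of unity.
-/

open Polynomial

namespace Pool.Agent.Work.MP_086516_nt

/-- The cyclotomic polynomial over `ℤ`. -/
noncomputable abbrev Phi (k : ℕ) : ℤ[X] := cyclotomic k ℤ

lemma Phi_monic (k : ℕ) : (Phi k).Monic := cyclotomic.monic k ℤ

lemma Phi_degree (k : ℕ) : (Phi k).degree = (k.totient : WithBot ℕ) := degree_cyclotomic k ℤ

/-- The pairing of a polynomial (modulo the cyclotomic polynomial) with a real vector. -/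
noncomputable def pair (k : ℕ) (t : Fin k.totient → ℝ) (p : ℤ[X]) : ℝ :=
  ∑ j : Fin k.totient, (((p %ₘ Phi k).coeff j : ℤ) : ℝ) * t j

variable {k : ℕ}

lemma pair_add (t : Fin k.totient → ℝ) (p q : ℤ[X]) :
    pair k t (p + q) = pair k t p + pair k t q := by
  simp only [pair, add_modByMonic, coeff_add, Int.cast_add, add_mul, Finset.sum_add_distrib]

lemma pair_smul (t : Fin k.totient → ℝ) (a : ℤ) (p : ℤ[X]) :
    pair k t (C a * p) = a * pair k t p := by
  simp only [pair, ← smul_eq_C_mul, smul_modByMonic, coeff_smul, smul_eq_mul, Int.cast_mul,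
    Finset.mul_sum, mul_assoc]

lemma pair_zero (t : Fin k.totient → ℝ) : pair k t 0 = 0 := by
  simp [pair]

lemma pair_sum {ι : Type*} (t : Fin k.totient → ℝ) (s : Finset ι) (p : ι → ℤ[X]) :
    pair k t (∑ i ∈ s, p i) = ∑ i ∈ s, pair k t (p i) := by
  classical
  induction s using Finset.induction_on with
  | empty => simp [pair_zero]
  | insert a s ha ih => rw [Finset.sum_insert ha, Finset.sum_insert ha, pair_add, ih]

lemma pair_of_dvd (t : Fin k.totient → ℝ) {p : ℤ[X]} (h : Phi k ∣ p) : pair k t p = 0 := by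
  have : p %ₘ Phi k = 0 := (modByMonic_eq_zero_iff_dvd (Phi_monic k)).mpr h
  simp [pair, this]

lemma pair_congr (t : Fin k.totient → ℝ) {p q : ℤ[X]} (h : Phi k ∣ p - q) :
    pair k t p = pair k t q := by
  have h1 : p = q + (p - q) := by ring
  rw [h1, pair_add, pair_of_dvd t h, add_zero]

lemma pair_X_pow (t : Fin k.totient → ℝ) (j : Fin k.totient) : pair k t (X ^ (j : ℕ)) = t j := by
  have h1 : (X ^ (j : ℕ) : ℤ[X]) %ₘ Phi k = X ^ (j : ℕ) := by
    rw [modByMonic_eq_self_iff (Phi_monic k), Phi_degree, degree_X_pow]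
    exact_mod_cast j.2
  simp only [pair, h1, coeff_X_pow]
  rw [Finset.sum_eq_single j]
  · simp
  · intro i _ hij
    have : (i : ℕ) ≠ (j : ℕ) := fun h => hij (Fin.ext h)
    simp [this]
  · simp

lemma mod_eq_sum (p : ℤ[X]) :
    p %ₘ Phi k = ∑ j : Fin k.totient, C ((p %ₘ Phi k).coeff j) * X ^ (j : ℕ) := by
  conv_lhs => rw [← sum_modByMonic_coeff (Phi_monic k) (n := k.totient) (p := p)
    (Phi_degree k).le]
  refine Finset.sum_congr rfl (fun j _ => ?_)
  rw [C_mul_X_pow_eq_monomial]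

lemma pair_decomp (t : Fin k.totient → ℝ) (q p : ℤ[X]) :
    pair k t (q * p) =
      ∑ j : Fin k.totient, (((p %ₘ Phi k).coeff j : ℤ) : ℝ) * pair k t (q * X ^ (j : ℕ)) := by
  have h1 : pair k t (q * p) = pair k t (q * (p %ₘ Phi k)) := by
    apply pair_congr
    have := modByMonic_add_div p (Phi k)
    refine ⟨q * (p /ₘ Phi k), ?_⟩
    linear_combination (-q) * this
  rw [h1]
  conv_lhs => rw [mod_eq_sum p, Finset.mul_sum, pair_sum]
  refine Finset.sum_congr rfl (fun j _ => ?_)
  rw [← pair_smul]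
  congr 1
  ring

/-- The transpose of multiplication by `ζ_k`. -/
noncomputable def V (k : ℕ) (t : Fin k.totient → ℝ) : Fin k.totient → ℝ :=
  fun j => pair k t (X ^ ((j : ℕ) + 1))

lemma pair_V (t : Fin k.totient → ℝ) (p : ℤ[X]) : pair k (V k t) p = pair k t (X * p) := by
  rw [pair_decomp]
  simp only [pair, V]
  refine Finset.sum_congr rfl (fun j _ => ?_)
  rw [pow_succ']

lemma pair_V_iter (t : Fin k.totient → ℝ) (i : ℕ) (p : ℤ[X]) :
    pair k ((V k)^[i] t) p = pair k t (X ^ i * p) := by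
  induction i generalizing p with
  | zero => simp
  | succ i ih =>
    rw [Function.iterate_succ_apply', pair_V, ih]
    congr 1
    ring

lemma V_iter_apply (t : Fin k.totient → ℝ) (i : ℕ) (j : Fin k.totient) :
    ((V k)^[i] t) j = pair k t (X ^ (i + (j : ℕ))) := by
  rw [← pair_X_pow ((V k)^[i] t) j, pair_V_iter, pow_add]

lemma continuous_pair (p : ℤ[X]) : Continuous fun t => pair k t p := by
  unfold pair
  fun_prop

lemma continuous_V : Continuous (V k) := by
  apply continuous_pi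
  intro j
  exact continuous_pair _

lemma V_zero : V k 0 = 0 := by
  ext j; simp [V, pair]

lemma pair_int (n : Fin k.totient → ℤ) (p : ℤ[X]) :
    ∃ m : ℤ, pair k (cst n) p = m := by
  refine ⟨∑ j : Fin k.totient, (p %ₘ Phi k).coeff j * n j, ?_⟩
  simp [pair, cst]

lemma V_int (n : Fin k.totient → ℤ) : ∃ m : Fin k.totient → ℤ, V k (cst n) = cst m := by
  choose m hm using fun j : Fin k.totient => pair_int n (X ^ ((j : ℕ) + 1))
  exact ⟨m, funext hm⟩

lemma V_sum (hk : 2 ≤ k) (t : Fin k.totient → ℝ) : ∑ i ∈ Finset.range k, (V k)^[i] t = 0 := by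
  ext j
  rw [Finset.sum_apply]
  simp only [V_iter_apply, Pi.zero_apply]
  rw [← pair_sum]
  apply pair_of_dvd
  have h1 : Phi k ∣ ∑ i ∈ Finset.range k, (X : ℤ[X]) ^ i :=
    cyclotomic_dvd_geom_sum_of_dvd ℤ dvd_rfl (by omega)
  have h2 : ∑ i ∈ Finset.range k, (X : ℤ[X]) ^ (i + (j : ℕ)) =
      (∑ i ∈ Finset.range k, (X : ℤ[X]) ^ i) * X ^ (j : ℕ) := by
    rw [Finset.sum_mul]
    refine Finset.sum_congr rfl (fun i _ => ?_)
    rw [pow_add]
  rw [h2]
  exact h1.mul_right _

/-- The function `f(t) = F_k(e^{2πi t})`. -/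
noncomputable def f (k : ℕ) (t : Fin k.totient → ℝ) : ℂ :=
  ∑ i ∈ Finset.range k, Complex.exp (2 * Real.pi * Complex.I * (pair k t (X ^ i) : ℂ))

lemma continuous_f : Continuous (f k) := by
  unfold f
  refine continuous_finsetSum _ (fun i _ => ?_)
  have := continuous_pair (k := k) (X ^ i)
  fun_prop

lemma f_V (t : Fin k.totient → ℝ) : f k (V k t) = f k t := by
  unfold f
  simp only [pair_V]
  have h1 : ∀ i : ℕ, (X : ℤ[X]) * X ^ i = X ^ (i + 1) := fun i => by ring
  simp only [h1]
  have h2 := Finset.sum_range_succ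
    (fun i => Complex.exp (2 * Real.pi * Complex.I * (pair k t (X ^ i) : ℂ))) k
  have h3 := Finset.sum_range_succ'
    (fun i => Complex.exp (2 * Real.pi * Complex.I * (pair k t (X ^ i) : ℂ))) k
  have h4 : pair k t (X ^ k) = pair k t (X ^ 0) := by
    apply pair_congr
    rw [pow_zero]
    exact cyclotomic.dvd_X_pow_sub_one k ℤ
  rw [h3, h4] at h2
  exact add_right_cancel h2

lemma pair_add_left (t s : Fin k.totient → ℝ) (p : ℤ[X]) :
    pair k (t + s) p = pair k t p + pair k s p := by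
  simp [pair, mul_add, Finset.sum_add_distrib]

lemma pair_neg_left (t : Fin k.totient → ℝ) (p : ℤ[X]) :
    pair k (-t) p = - pair k t p := by
  simp [pair]

lemma f_per (t : Fin k.totient → ℝ) (n : Fin k.totient → ℤ) : f k (t + cst n) = f k t := by
  unfold f
  refine Finset.sum_congr rfl (fun i _ => ?_)
  rw [pair_add_left]
  obtain ⟨m, hm⟩ := pair_int n (X ^ i)
  rw [hm]
  apply Complex.exp_eq_exp_iff_exists_int.mpr
  refine ⟨m, ?_⟩
  push_cast
  ring

lemma f_neg (t : Fin k.totient → ℝ) : f k (-t) = (starRingEnd ℂ) (f k t) := by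
  unfold f
  rw [map_sum]
  refine Finset.sum_congr rfl (fun i _ => ?_)
  rw [← Complex.exp_conj, pair_neg_left]
  congr 1
  simp only [map_mul, Complex.conj_ofReal, Complex.conj_I, map_ofNat, Complex.ofReal_neg]
  ring

lemma f_zero : f k 0 = k := by
  simp [f, pair]

/-- For every `i` some coefficient of `X ^ i` modulo the cyclotomic polynomial is odd. -/
lemma exists_odd (hk : 1 ≤ k) (i : ℕ) (hi : i ≤ k) :
    ∃ j : Fin k.totient, Odd (((X ^ i : ℤ[X]) %ₘ Phi k).coeff j) := by
  by_contra hcon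
  push Not at hcon
  simp only [Int.not_odd_iff_even] at hcon
  choose b hb using fun j => (hcon j).two_dvd
  have hd : 0 < k.totient := Nat.totient_pos.mpr hk
  set j0 : Fin k.totient := ⟨0, hd⟩
  set e : Fin k.totient → ℤ := fun j => if j = j0 then 1 else 0
  -- the vector V^(k-i) e
  have hiter : ∀ m : ℕ, ∃ l : Fin k.totient → ℤ, (V k)^[m] (cst e) = cst l := by
    intro m
    induction m with
    | zero => exact ⟨e, rfl⟩
    | succ m ih =>
      obtain ⟨l, hl⟩ := ih
      rw [Function.iterate_succ_apply', hl]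
      exact V_int l
  obtain ⟨l, hl⟩ := hiter (k - i)
  have h1 : pair k ((V k)^[k - i] (cst e)) (X ^ i) = 1 := by
    rw [pair_V_iter, ← pow_add, Nat.sub_add_cancel hi]
    have h2 : pair k (cst e) (X ^ k) = pair k (cst e) (X ^ (j0 : ℕ)) := by
      apply pair_congr
      simp only [j0, pow_zero]
      exact cyclotomic.dvd_X_pow_sub_one k ℤ
    rw [h2, pair_X_pow]
    simp [cst, e]
  rw [hl] at h1
  simp only [pair, cst] at h1
  have h3 : (∑ j : Fin k.totient, ((X ^ i : ℤ[X]) %ₘ Phi k).coeff j * l j) = 1 := by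
    exact_mod_cast h1
  have h4 : (2 : ℤ) ∣ 1 := by
    rw [← h3]
    apply Finset.dvd_sum
    intro j _
    exact (hcon j).two_dvd.mul_right _
  norm_num at h4

lemma f_avg (hk : 1 ≤ k) :
    ∑ e : Fin k.totient → Fin 2, f k (fun j => ((e j : ℕ) : ℝ) / 2) = 0 := by
  unfold f
  rw [Finset.sum_comm]
  apply Finset.sum_eq_zero
  intro i hi
  have hik : i ≤ k := (Finset.mem_range.mp hi).le
  obtain ⟨j, hj⟩ := exists_odd hk i hik
  set c : Fin k.totient → ℤ := fun j => ((X ^ i : ℤ[X]) %ₘ Phi k).coeff j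
  have h1 : ∀ e : Fin k.totient → Fin 2,
      Complex.exp (2 * Real.pi * Complex.I *
        ((pair k (fun j => ((e j : ℕ) : ℝ) / 2) (X ^ i) : ℝ) : ℂ)) =
      ∏ j, Complex.exp (Real.pi * Complex.I * (c j * ((e j : ℕ) : ℂ))) := by
    intro e
    rw [← Complex.exp_sum]
    congr 1
    simp only [pair]
    push_cast
    rw [Finset.mul_sum]
    refine Finset.sum_congr rfl (fun j _ => ?_)
    simp only [c]
    ring
  simp only [h1]
  have h2 := Finset.prod_univ_sum (fun _ : Fin k.totient => (Finset.univ : Finset (Fin 2)))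
    (fun j (e : Fin 2) => Complex.exp (Real.pi * Complex.I * (c j * ((e : ℕ) : ℂ))))
  rw [Fintype.piFinset_univ] at h2
  rw [← h2]
  apply Finset.prod_eq_zero (Finset.mem_univ j)
  rw [Fin.sum_univ_two]
  obtain ⟨b, hb⟩ := hj
  have hb' : c j = 2 * b + 1 := hb
  rw [hb']
  have h3 : Complex.exp (Real.pi * Complex.I * (((2 * b + 1 : ℤ) : ℂ) * (((1 : Fin 2) : ℕ) : ℂ)))
      = Complex.exp (Real.pi * Complex.I) := by
    apply Complex.exp_eq_exp_iff_exists_int.mpr
    refine ⟨b, ?_⟩
    simp only [Fin.val_one, Nat.cast_one]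
    push_cast
    ring
  rw [h3, Complex.exp_pi_mul_I]
  simp

/-- The function `f` has a zero, for every `k ≥ 2`. -/
theorem f_exists_zero (hk : 2 ≤ k) : ∃ t, f k t = 0 :=
  exists_zero (f k) continuous_f (V k) continuous_V V_zero f_V V_int f_per k (by omega)
    (fun n => V_sum hk _) f_neg ⟨k, by exact_mod_cast (by omega : 0 < k), by simp [f_zero]⟩
    (f_avg (by omega))

end Pool.Agent.Work.MP_086516_nt
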