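import Pool.Agent.Work.MP_086516_nt.Steps

namespace Pool.Agent.Work.MP_086516_nt

open Polynomial Finset

noncomputable section

/-- nonvanishing weights on `ZMod q` with sum zero in `ZMod p`, `p` odd. -/
theorem exists_weights {p q : ℕ} [hp : Fact p.Prime] (hp2 : p ≠ 2) (hq : q.Prime) [NeZero q] :
    ∃ t : ZMod q → ZMod p, (∀ a, t a ≠ 0) ∧ ∑ a : ZMod q, t a = 0 := by
  have h2 : (2 : ZMod p) ≠ 0 := by
    intro h
    have h' : ((2 : ℕ) : ZMod p) = 0 := by exact_mod_cast h
    rw [ZMod.natCast_eq_zero_iff] at h'
    exact hp2 ((Nat.prime_dvd_prime_iff_eq hp.out Nat.prime_two).mp h')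
  haveI : Fact q.Prime := ⟨hq⟩
  have h01 : (1 : ZMod q) ≠ 0 := one_ne_zero
  by_cases h : (q : ZMod p) = 1
  · refine ⟨fun a => 1 + (if a = 0 then 1 else 0) + (if a = 1 then (-2) else 0), ?_, ?_⟩
    · intro a
      by_cases ha : a = 0
      · subst ha
        simp only [if_true]
        rw [if_neg (Ne.symm h01), add_zero]
        intro h3
        apply h2
        rw [← h3]; norm_num
      · by_cases ha1 : a = 1
        · subst ha1
          simp only [if_true]
          rw [if_neg h01]
          intro h3
          have : (1 : ZMod p) = 0 := by linear_combination -h3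
          exact one_ne_zero this
        · simp only [if_neg ha, if_neg ha1, add_zero]
          exact one_ne_zero
    · rw [Finset.sum_add_distrib, Finset.sum_add_distrib]
      simp only [Finset.sum_ite_eq', Finset.mem_univ, if_true, Finset.sum_const, Finset.card_univ,
        ZMod.card, nsmul_eq_mul, mul_one]
      rw [h]; norm_num
  · refine ⟨fun a => 1 + (if a = 0 then -(q : ZMod p) else 0), ?_, ?_⟩
    · intro a
      by_cases ha : a = 0
      · subst ha
        simp only [if_true]
        intro h3
        apply h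
        linear_combination -h3
      · simp only [if_neg ha, add_zero]
        exact one_ne_zero
    · rw [Finset.sum_add_distrib]
      simp only [Finset.sum_ite_eq', Finset.mem_univ, if_true, Finset.sum_const, Finset.card_univ,
        ZMod.card, nsmul_eq_mul, mul_one]
      ring

theorem sum_range_zmod {A : Type*} [AddCommMonoid A] {q : ℕ} [NeZero q] (G : ZMod q → A) :
    ∑ j ∈ range q, G ((j : ℕ) : ZMod q) = ∑ a : ZMod q, G a := by
  have := sum_range_coprime (m := 1) (q := q) (Nat.coprime_one_left q) G 0
  simpa using this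

/-- Base case: `m = p` an odd prime. -/
theorem good_prime {p : ℕ} [hp : Fact p.Prime] (hp2 : p ≠ 2) : Good p p := by
  refine ⟨fun n => (n : ZMod p), ?_, ?_⟩
  · funext n
    rw [cyclotomic_prime, act_finset_sum, Finset.sum_apply]
    simp only [act_X_pow]
    push_cast
    rw [Finset.sum_add_distrib]
    simp only [Finset.sum_const, Finset.card_range, nsmul_eq_mul, CharP.cast_eq_zero, zero_mul,
      zero_add, Pi.zero_apply]
    have h1 : (∑ x ∈ range p, (x : ZMod p)) * 2 = 0 := by
      have := Finset.sum_range_id_mul_two p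
      have h2 : ((∑ i ∈ range p, i : ℕ) : ZMod p) * 2 = ((p * (p - 1) : ℕ) : ZMod p) := by
        exact_mod_cast congrArg (Nat.cast : ℕ → ZMod p) this
      push_cast at h2
      rw [h2]
      simp
    have h2 : (2 : ZMod p) ≠ 0 := by
      intro h
      have h' : ((2 : ℕ) : ZMod p) = 0 := by exact_mod_cast h
      rw [ZMod.natCast_eq_zero_iff] at h'
      exact hp2 ((Nat.prime_dvd_prime_iff_eq hp.out Nat.prime_two).mp h')
    rcases mul_eq_zero.mp h1 with h3 | h3
    · exact h3
    · exact absurd h3 h2
  · intro c hc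
    rw [sum_range_zmod (fun a => (ZMod.stdAddChar (c * a) : ℂ))]
    have hprim := ZMod.isPrimitive_stdAddChar p
    have hne : AddChar.mulShift (ZMod.stdAddChar (N := p)) c ≠ 1 := hprim hc.ne_zero
    have := AddChar.sum_eq_zero_of_ne_one hne
    simpa [AddChar.mulShift_apply] using this

/-- `Good p k` for every positive multiple `k` of the odd prime `p`. -/
theorem good_of_dvd {p : ℕ} [hp : Fact p.Prime] (hp2 : p ≠ 2) (j : ℕ) (hj : 0 < j) :
    Good p (p * j) := by
  induction j using induction_on_primes with
  | zero => exact absurd hj (lt_irrefl _)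
  | one => simpa using good_prime hp2
  | prime_mul q a hq ih =>
    have ha : 0 < a := Nat.pos_of_ne_zero (by rintro rfl; simp at hj)
    have h := ih ha
    have he : p * (q * a) = (p * a) * q := by ring
    rw [he]
    by_cases hqd : q ∣ p * a
    · exact h.step_dvd hq hqd
    · haveI : NeZero q := ⟨hq.ne_zero⟩
      obtain ⟨t, ht, hts⟩ := exists_weights (p := p) (q := q) hp2 hq
      refine Good.step_not_dvd (Nat.mul_pos hp.out.pos ha) hq hqd ?_ t ht h hts
      rintro rfl
      exact hqd (Dvd.intro _ rfl)

/-- `Good 4 (2 ^ e)` for `e ≥ 1`. -/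
theorem good_two_pow (e : ℕ) : Good 4 (2 ^ (e + 1)) := by
  induction e with
  | zero =>
    refine ⟨fun n => (-1) ^ n, ?_, ?_⟩
    · funext n
      rw [zero_add, pow_one, cyclotomic_two, act_add]
      have h1 := act_X_pow (R := ZMod 4) 1 (fun n => (-1) ^ n) n
      have h3 : act (1 : ℤ[X]) (fun n => (-1 : ZMod 4) ^ n) = (fun n => (-1 : ZMod 4) ^ n) := by
        have := act_C (R := ZMod 4) 1 (fun n => (-1 : ZMod 4) ^ n)
        simpa using this
      rw [pow_one] at h1
      rw [Pi.add_apply, h1, h3]
      simp [pow_succ]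
    · intro c hc
      have : (2 : ZMod 4) * c = 2 := by
        revert hc
        revert c
        decide
      rw [zero_add, pow_one, Finset.sum_range_succ, Finset.sum_range_one]
      simp only [pow_zero, pow_one, mul_one, mul_neg]
      have h1 : (ZMod.stdAddChar (N := 4) c : ℂ) = ZMod.stdAddChar (N := 4) (-c)
          * ZMod.stdAddChar (N := 4) (2 * c) := by
        rw [← AddChar.map_add_eq_mul]; congr 1; ring
      rw [h1, this]
      have h2 : (ZMod.stdAddChar (N := 4) (2 : ZMod 4) : ℂ) = -1 := by
        have := ZMod.stdAddChar_coe (N := 4) 2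
        simp only [Int.cast_ofNat] at this
        rw [this]
        rw [← Complex.exp_pi_mul_I]
        congr 1
        push_cast
        ring
      rw [h2]; ring
  | succ e ih =>
    have h := ih.step_dvd Nat.prime_two (dvd_pow_self 2 (Nat.succ_ne_zero e))
    rw [← pow_succ] at h
    exact h

/-- For every `k ≥ 2` there are a modulus `M` and a suitable sequence. -/
theorem exists_good {k : ℕ} (hk : 2 ≤ k) : ∃ (M : ℕ) (_ : NeZero M), Good M k := by
  rcases Nat.eq_two_pow_or_exists_odd_prime_and_dvd k with ⟨e, he⟩ | ⟨p, hp, hpk, hodd⟩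
  · rcases e with _ | e
    · simp at he; omega
    · exact ⟨4, ⟨by norm_num⟩, he ▸ good_two_pow e⟩
  · haveI : Fact p.Prime := ⟨hp⟩
    obtain ⟨j, rfl⟩ := hpk
    refine ⟨p, ⟨hp.ne_zero⟩, good_of_dvd ?_ j (Nat.pos_of_ne_zero ?_)⟩
    · rintro rfl; revert hodd; decide
    · rintro rfl; simp at hk

end

end Pool.Agent.Work.MP_086516_nt
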