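import Pool.Agent.Work.MP_086516_nt.Defs
import Pool.Agent.Work.MP_086516_nt.Exist

namespace Pool.Agent.Work.MP_086516_nt

open Polynomial Finset

noncomputable section

/-- The coefficient vector of `ζ_k^n`. -/
def vec (k n : ℕ) : Fin (Nat.totient k) → ℤ := fun j => (X ^ n %ₘ cyclotomic k ℤ).coeff j

theorem zetaK_prim {k : ℕ} (hk : k ≠ 0) : IsPrimitiveRoot (zetaK k) k :=
  Complex.isPrimitiveRoot_exp k hk

theorem degree_mod_lt (k n : ℕ) : ((X : ℤ[X]) ^ n %ₘ cyclotomic k ℤ).degree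
    < (Nat.totient k : WithBot ℕ) := by
  have h := degree_modByMonic_lt ((X : ℤ[X]) ^ n) (cyclotomic.monic k ℤ)
  rwa [degree_cyclotomic] at h

theorem natDegree_mod_lt {k : ℕ} (hk : k ≠ 0) (n : ℕ) :
    ((X : ℤ[X]) ^ n %ₘ cyclotomic k ℤ).natDegree < Nat.totient k := by
  have h := degree_mod_lt k n
  by_cases h0 : ((X : ℤ[X]) ^ n %ₘ cyclotomic k ℤ) = 0
  · rw [h0, natDegree_zero]; exact Nat.totient_pos.mpr (Nat.pos_of_ne_zero hk)
  · exact (natDegree_lt_iff_degree_lt h0).mpr h

theorem aeval_cyclotomic_zetaK {k : ℕ} (hk : k ≠ 0) :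
    aeval (zetaK k) (cyclotomic k ℤ) = 0 := by
  rw [cyclotomic_eq_minpoly (zetaK_prim hk) (Nat.pos_of_ne_zero hk)]
  exact minpoly.aeval ℤ _

theorem sum_vec {k : ℕ} (hk : k ≠ 0) (n : ℕ) :
    ∑ j, (vec k n j : ℂ) * zetaK k ^ (j : ℕ) = zetaK k ^ n := by
  have h1 := modByMonic_add_div ((X : ℤ[X]) ^ n) (cyclotomic k ℤ)
  have h2 := congrArg (aeval (zetaK k)) h1
  rw [map_add, map_mul, aeval_cyclotomic_zetaK hk, zero_mul, add_zero, map_pow, aeval_X] at h2
  rw [← h2, aeval_eq_sum_range' (natDegree_mod_lt hk n)]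
  rw [Finset.sum_range]
  refine Finset.sum_congr rfl (fun j _ => ?_)
  rw [vec, zsmul_eq_mul]

theorem eval_injective {k : ℕ} (hk : k ≠ 0) (a b : Fin (Nat.totient k) → ℤ)
    (h : ∑ j, (a j : ℂ) * zetaK k ^ (j : ℕ) = ∑ j, (b j : ℂ) * zetaK k ^ (j : ℕ)) : a = b := by
  set g : ℤ[X] := ∑ j : Fin (Nat.totient k), C (a j - b j) * X ^ (j : ℕ) with hg
  have hg0 : aeval (zetaK k) g = 0 := by
    rw [hg, map_sum]
    simp only [map_mul, aeval_C, map_pow, aeval_X]
    rw [← sub_eq_zero] at h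
    rw [← h, ← Finset.sum_sub_distrib]
    refine Finset.sum_congr rfl (fun j _ => ?_)
    simp
    ring
  have hdeg : g.degree < (Nat.totient k : WithBot ℕ) := by
    rw [hg]; exact degree_sum_fin_lt _
  have hdvd : cyclotomic k ℤ ∣ g := by
    rw [cyclotomic_eq_minpoly (zetaK_prim hk) (Nat.pos_of_ne_zero hk)]
    exact minpoly.isIntegrallyClosed_dvd
      ((zetaK_prim hk).isIntegral (Nat.pos_of_ne_zero hk)) hg0
  have hgz : g = 0 := by
    refine eq_zero_of_dvd_of_degree_lt hdvd ?_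
    rwa [degree_cyclotomic]
  funext j
  have hc := congrArg (fun p : ℤ[X] => p.coeff (j : ℕ)) hgz
  simp only [hg, finsetSum_coeff, coeff_C_mul, coeff_X_pow, coeff_zero] at hc
  rw [Finset.sum_eq_single j] at hc
  · simp at hc; linarith
  · intro i _ hij
    rw [if_neg, mul_zero]
    intro h'; exact hij (Fin.ext h'.symm)
  · intro h'; exact absurd (Finset.mem_univ _) h'

theorem vec_injOn {k : ℕ} (hk : k ≠ 0) : Set.InjOn (vec k) (range k : Set ℕ) := by
  intro m hm n hn h
  have h1 := sum_vec hk m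
  have h2 := sum_vec hk n
  rw [h, h2] at h1
  have hm' : m < k := by simpa using hm
  have hn' : n < k := by simpa using hn
  exact ((zetaK_prim hk).pow_inj hn' hm' h1).symm

theorem coeffSet_eq {k : ℕ} (hk : k ≠ 0) : coeffSet k = ↑((range k).image (vec k)) := by
  ext a
  simp only [coeffSet, Set.mem_ofPred_eq, Finset.coe_image, Set.mem_image, Finset.mem_coe,
    Finset.mem_range]
  constructor
  · intro h
    have : NeZero k := ⟨hk⟩
    obtain ⟨n, hn, hn'⟩ := (zetaK_prim hk).eq_pow_of_pow_eq_one h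
    refine ⟨n, hn, ?_⟩
    apply eval_injective hk
    rw [sum_vec hk, hn']
  · rintro ⟨n, _, rfl⟩
    rw [sum_vec hk, ← pow_mul, mul_comm n k, pow_mul, (zetaK_prim hk).pow_eq_one, one_pow]

/-- `A_k` has exactly `k` elements. -/
theorem coeffSet_ncard {k : ℕ} (hk : k ≠ 0) : (coeffSet k).ncard = k := by
  rw [coeffSet_eq hk, Set.ncard_coe_finset, Finset.card_image_of_injOn (vec_injOn hk),
    Finset.card_range]

theorem cycloPoly_eq {k : ℕ} (hk : k ≠ 0) (x : Fin (Nat.totient k) → ℂ) :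
    cycloPoly k x = ∑ n ∈ range k, ∏ j, x j ^ (vec k n j) := by
  unfold cycloPoly
  rw [coeffSet_eq hk, finsum_mem_coe_finset, Finset.sum_image (vec_injOn hk)]

theorem addChar_map_sum {A ι : Type*} [AddCommMonoid A] (ψ : AddChar A ℂ) (s : Finset ι)
    (g : ι → A) : ψ (∑ i ∈ s, g i) = ∏ i ∈ s, ψ (g i) := by
  classical
  induction s using Finset.induction_on with
  | empty => simp
  | insert a s ha ih => rw [Finset.sum_insert ha, Finset.prod_insert ha, AddChar.map_add_eq_mul, ih]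

/-- Every `F_k`, `k ≥ 2`, vanishes somewhere on the unit torus. -/
theorem exists_zero {k : ℕ} (hk : 2 ≤ k) :
    ∃ x : Fin (Nat.totient k) → ℂ, (∀ j, ‖x j‖ = 1) ∧ cycloPoly k x = 0 := by
  have hk0 : k ≠ 0 := by omega
  obtain ⟨M, _, f, hf, hsum⟩ := exists_good hk
  refine ⟨fun j => ZMod.stdAddChar (f j), fun j => ?_, ?_⟩
  · exact AddChar.norm_apply _ _
  · rw [cycloPoly_eq hk0]
    have h1 : ∀ n, f n = ∑ j, (vec k n j) • f (j : ℕ) := by
      intro n
      have h2 := modByMonic_add_div ((X : ℤ[X]) ^ n) (cyclotomic k ℤ)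
      have h3 : act ((X : ℤ[X]) ^ n) f = act ((X : ℤ[X]) ^ n %ₘ cyclotomic k ℤ) f := by
        conv_lhs => rw [← h2]
        rw [act_add, act_eq_zero_of_dvd (Dvd.intro _ rfl) hf, add_zero]
      have h4 := congrFun h3 0
      rw [act_X_pow, act_apply, zero_add] at h4
      rw [h4, Polynomial.sum_over_range' _ _ _ (natDegree_mod_lt hk0 n), Finset.sum_range]
      · refine Finset.sum_congr rfl (fun j _ => ?_)
        rw [vec, zero_add]
      · intro j; simp
    have h5 : ∀ n, ∏ j : Fin (Nat.totient k),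
        (ZMod.stdAddChar (f (j : ℕ)) : ℂ) ^ (vec k n j) = ZMod.stdAddChar (f n) := by
      intro n
      rw [h1 n, addChar_map_sum]
      refine Finset.prod_congr rfl (fun j _ => ?_)
      rw [AddChar.map_zsmul_eq_zpow]
    simp only [h5]
    have := hsum 1 isUnit_one
    simpa using this

theorem exists_norm_one {k : ℕ} (hk : 1 ≤ k) :
    ∃ x : Fin (Nat.totient k) → ℂ, (∀ j, ‖x j‖ = 1) ∧ ‖cycloPoly k x‖ = 1 := by
  have hk0 : k ≠ 0 := by omega
  have hone : cycloPoly k (fun _ => 1) = k := by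
    rw [cycloPoly_eq hk0]; simp
  rcases Nat.lt_or_ge k 2 with h2 | h2
  · have : k = 1 := by omega
    subst this
    exact ⟨fun _ => 1, fun _ => by simp, by rw [hone]; simp⟩
  · obtain ⟨x, hx, hx0⟩ := exists_zero h2
    let γ : ℝ → Fin (Nat.totient k) → ℂ := fun t j => Complex.exp ((t * (x j).arg : ℝ) * Complex.I)
    have hγ : ∀ t j, ‖γ t j‖ = 1 := fun t j => Complex.norm_exp_ofReal_mul_I _
    have hγ1 : γ 1 = x := by
      funext j
      have := Complex.norm_mul_exp_arg_mul_I (x j)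
      rw [hx j] at this
      simpa [γ] using this
    have hγ0 : γ 0 = fun _ => 1 := by
      funext j; simp [γ]
    have hcont : Continuous (fun t => ‖cycloPoly k (γ t)‖) := by
      simp only [cycloPoly_eq hk0]
      refine continuous_norm.comp ?_
      refine continuous_finsetSum _ (fun n _ => ?_)
      refine continuous_finsetProd _ (fun j _ => ?_)
      refine Continuous.zpow₀ ?_ _ (fun t => Or.inl ?_)
      · fun_prop
      · intro h; have := hγ t j; rw [h] at this; simp at this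
    have hivt := intermediate_value_Icc' (zero_le_one' ℝ) hcont.continuousOn
    have hmem : (1 : ℝ) ∈ Set.Icc ‖cycloPoly k (γ 1)‖ ‖cycloPoly k (γ 0)‖ := by
      rw [hγ1, hγ0, hx0, hone]
      simp
      exact_mod_cast hk
    obtain ⟨t, _, ht⟩ := hivt hmem
    exact ⟨γ t, hγ t, ht⟩

/-- For every `k ≥ 1` the cyclovariety `C_k` meets the unit torus. -/
theorem main (k : ℕ) (hk : 1 ≤ k) :
    (cyclovariety k ∩ unitTorus (Nat.totient k + 1)).Nonempty := by
  obtain ⟨x, hx, hF⟩ := exists_norm_one hk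
  have hsucc : (fun j : Fin (Nat.totient k) =>
      (Fin.cons (-cycloPoly k x) x : Fin (Nat.totient k + 1) → ℂ) j.succ) = x := by
    funext j; simp
  refine ⟨Fin.cons (-cycloPoly k x) x, ⟨?_, ?_⟩, ?_⟩
  · intro i
    refine Fin.cases ?_ ?_ i
    · simp only [Fin.cons_zero]
      intro h
      rw [neg_eq_zero] at h
      rw [h] at hF
      simp at hF
    · intro j
      simp only [Fin.cons_succ]
      intro h
      have := hx j
      rw [h] at this
      simp at this
  · rw [hsucc]; simp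
  · intro i
    refine Fin.cases ?_ ?_ i
    · simp only [Fin.cons_zero, norm_neg]; exact hF
    · intro j
      simp only [Fin.cons_succ]; exact hx j

end

end Pool.Agent.Work.MP_086516_nt
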