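import Mathlib

namespace Pool.Agent.Work.MP_086516_nt

open Polynomial Finset

noncomputable section

variable {R : Type*} [CommRing R]

/-- The shift operator on sequences. -/
def shiftOp (R : Type*) [CommRing R] : Module.End ℤ (ℕ → R) where
  toFun f := fun n => f (n + 1)
  map_add' _ _ := rfl
  map_smul' _ _ := rfl

theorem shiftOp_pow_apply (j : ℕ) (f : ℕ → R) (n : ℕ) :
    ((shiftOp R) ^ j) f n = f (n + j) := by
  induction j generalizing n with
  | zero => simp
  | succ j ih =>
    rw [pow_succ', Module.End.mul_apply]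
    show ((shiftOp R) ^ j) f (n + 1) = _
    rw [ih]
    congr 1
    ring

/-- Polynomials act on sequences through the shift. -/
def act (g : ℤ[X]) (f : ℕ → R) : ℕ → R := (aeval (shiftOp R) g) f

theorem act_apply (g : ℤ[X]) (f : ℕ → R) (n : ℕ) :
    act g f n = g.sum (fun j c => c • f (n + j)) := by
  unfold act
  rw [aeval_eq_sum_range, Polynomial.sum_over_range]
  · simp [LinearMap.sum_apply, LinearMap.smul_apply, shiftOp_pow_apply, Finset.sum_apply]
  · intro j; simp

theorem act_mul (g h : ℤ[X]) (f : ℕ → R) : act (g * h) f = act g (act h f) := by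
  unfold act
  rw [map_mul, Module.End.mul_apply]

theorem act_mul' (g h : ℤ[X]) (f : ℕ → R) : act (g * h) f = act h (act g f) := by
  rw [mul_comm, act_mul]

theorem act_add (g h : ℤ[X]) (f : ℕ → R) : act (g + h) f = act g f + act h f := by
  unfold act
  rw [map_add, LinearMap.add_apply]

theorem act_sub (g h : ℤ[X]) (f : ℕ → R) : act (g - h) f = act g f - act h f := by
  unfold act
  rw [map_sub, LinearMap.sub_apply]

theorem act_zero (g : ℤ[X]) : act g (0 : ℕ → R) = 0 := by
  unfold act
  rw [map_zero]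

theorem act_C (c : ℤ) (f : ℕ → R) : act (C c) f = c • f := by
  unfold act
  rw [aeval_C]
  rfl

theorem act_X_pow (j : ℕ) (f : ℕ → R) (n : ℕ) : act (X ^ j : ℤ[X]) f n = f (n + j) := by
  unfold act
  rw [map_pow, aeval_X, shiftOp_pow_apply]

theorem act_finset_sum {ι : Type*} (s : Finset ι) (g : ι → ℤ[X]) (f : ℕ → R) :
    act (∑ i ∈ s, g i) f = ∑ i ∈ s, act (g i) f := by
  unfold act
  rw [map_sum, LinearMap.sum_apply]

/-- If `g` kills `f` then so does every multiple of `g`. -/
theorem act_eq_zero_of_dvd {g h : ℤ[X]} {f : ℕ → R} (hgh : g ∣ h) (hg : act g f = 0) :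
    act h f = 0 := by
  obtain ⟨q, rfl⟩ := hgh
  rw [act_mul', hg, act_zero]

theorem act_expand (q : ℕ) (g : ℤ[X]) (f : ℕ → R) (n : ℕ) :
    act (expand ℤ q g) f n = g.sum (fun j c => c • f (n + q * j)) := by
  unfold act
  rw [expand_eq_sum, Polynomial.sum, Polynomial.sum, map_sum, LinearMap.sum_apply,
    Finset.sum_apply]
  refine Finset.sum_congr rfl (fun j _ => ?_)
  rw [map_mul, aeval_C, map_pow, map_pow, aeval_X, ← pow_mul]
  rw [Module.End.mul_apply]
  simp only [algebraMap_int_eq, eq_intCast]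
  rw [show ((g.coeff j : Module.End ℤ (ℕ → R))) = (g.coeff j) • (1 : Module.End ℤ (ℕ → R)) by
    simp]
  rw [LinearMap.smul_apply, Module.End.one_apply, Pi.smul_apply, shiftOp_pow_apply]

/-- A sequence killed by `Φ_m` is `m`-periodic. -/
theorem periodic_of_act_cyclotomic {m : ℕ} {f : ℕ → R} (h : act (cyclotomic m ℤ) f = 0) (n : ℕ) :
    f (n + m) = f n := by
  have h1 : act (X ^ m - 1 : ℤ[X]) f = 0 :=
    act_eq_zero_of_dvd (cyclotomic.dvd_X_pow_sub_one m ℤ) h
  have h2 := congrFun h1 n
  rw [act_sub] at h2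
  have h3 : act (1 : ℤ[X]) f = f := by
    have := act_C (R := R) 1 f
    simpa using this
  rw [h3] at h2
  simp only [Pi.sub_apply, Pi.zero_apply] at h2
  rw [act_X_pow] at h2
  exact sub_eq_zero.mp h2

end

end Pool.Agent.Work.MP_086516_nt
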