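import Pool.Agent.Work.MP_086516_nt.Seq

namespace Pool.Agent.Work.MP_086516_nt

open Polynomial Finset

noncomputable section

/-- `Good M m`: there is a sequence `f : ℕ → ZMod M` killed by `Φ_m` such that for every unit
`c` the character sum of `c * f` over a period vanishes. -/
def Good (M : ℕ) [NeZero M] (m : ℕ) : Prop :=
  ∃ f : ℕ → ZMod M, act (cyclotomic m ℤ) f = 0 ∧
    ∀ c : ZMod M, IsUnit c → ∑ n ∈ range m, ZMod.stdAddChar (c * f n) = 0

/-- Adding a prime that already divides `m`. -/
theorem Good.step_dvd {M : ℕ} [NeZero M] {m q : ℕ} (hq : q.Prime) (hqm : q ∣ m)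
    (h : Good M m) : Good M (m * q) := by
  obtain ⟨f, hf, hsum⟩ := h
  refine ⟨fun n => f (n / q), ?_, ?_⟩
  · funext n
    rw [← cyclotomic_expand_eq_cyclotomic hq hqm ℤ, act_expand]
    have h1 : ∀ j, (n + q * j) / q = n / q + j := by
      intro j
      rw [Nat.add_mul_div_left _ _ hq.pos]
    simp only [h1]
    rw [← act_apply, hf]
    rfl
  · intro c hc
    have h2 : ∀ (g : ℕ → ℂ) (m : ℕ), ∑ n ∈ range (m * q), g (n / q) = q • ∑ n ∈ range m, g n := by
      intro g m
      induction m with
      | zero => simp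
      | succ m ih =>
        rw [Nat.succ_mul, Finset.sum_range_add, ih, Finset.sum_range_succ, smul_add]
        congr 1
        rw [Finset.sum_congr rfl (g := fun _ => g m)]
        · simp
        · intro x hx
          rw [mem_range] at hx
          rw [mul_comm m q, Nat.mul_add_div hq.pos, Nat.div_eq_of_lt hx, add_zero]
    rw [h2 (fun n => ZMod.stdAddChar (c * f n)) m, hsum c hc, smul_zero]

/-- Sum over an arithmetic progression with difference coprime to the period. -/
theorem sum_range_coprime {A : Type*} [AddCommMonoid A] {m q : ℕ} [NeZero q]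
    (hmq : Nat.Coprime m q) (g : ZMod q → A) (b : ℕ) :
    ∑ j ∈ range q, g (((b + m * j : ℕ)) : ZMod q) = ∑ a : ZMod q, g a := by
  have h1 : ∀ G : ZMod q → A, ∑ j ∈ range q, G ((j : ℕ) : ZMod q) = ∑ a : ZMod q, G a := by
    intro G
    rw [Finset.sum_bij' (s := range q) (t := (Finset.univ : Finset (ZMod q)))
      (f := fun j => G ((j : ℕ) : ZMod q)) (g := fun a => G a)
      (i := fun j _ => ((j : ℕ) : ZMod q)) (j := fun a _ => a.val)]
    · intro a _; exact Finset.mem_univ _
    · intro a _; exact Finset.mem_range.mpr (ZMod.val_lt a)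
    · intro a ha; exact ZMod.val_cast_of_lt (Finset.mem_range.mp ha)
    · intro a _; exact ZMod.natCast_zmod_val a
    · intro a _; rfl
  have h2 := h1 (fun a => g ((b : ZMod q) + (m : ZMod q) * a))
  have hu : IsUnit (m : ZMod q) := (ZMod.isUnit_iff_coprime m q).mpr hmq
  obtain ⟨u, hu⟩ := hu
  calc ∑ j ∈ range q, g (((b + m * j : ℕ)) : ZMod q)
      = ∑ j ∈ range q, g ((b : ZMod q) + (m : ZMod q) * ((j : ℕ) : ZMod q)) := by
        refine Finset.sum_congr rfl (fun j _ => ?_)
        push_cast
        rfl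
    _ = ∑ a : ZMod q, g ((b : ZMod q) + (m : ZMod q) * a) := h2
    _ = ∑ a : ZMod q, g a := by
        refine Fintype.sum_equiv ((Units.mulLeft u).trans (Equiv.addLeft (b : ZMod q))) _ _ ?_
        intro a
        simp [← hu]

theorem sum_range_mul_reindex (g : ℕ → ℂ) (m q : ℕ) :
    ∑ n ∈ range (q * m), g n = ∑ b ∈ range m, ∑ j ∈ range q, g (b + m * j) := by
  induction q with
  | zero => simp
  | succ q ih =>
    rw [Nat.succ_mul, Finset.sum_range_add, ih]
    simp only [Finset.sum_range_succ]
    rw [Finset.sum_add_distrib]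
    congr 1
    refine Finset.sum_congr rfl (fun b _ => ?_)
    congr 1
    ring

/-- Adding a prime that does not divide `m`. -/
theorem Good.step_not_dvd {p : ℕ} [hp : Fact p.Prime] {m q : ℕ} (hm : 0 < m) (hq : q.Prime)
    (hqm : ¬ q ∣ m) (hqp : q ≠ p) (t : ZMod q → ZMod p) (ht : ∀ a, t a ≠ 0)
    (h : Good p m) [NeZero q] (htsum : ∑ a : ZMod q, t a = 0) :
    Good p (m * q) := by
  obtain ⟨f, hf, hsum⟩ := h
  have hcop : Nat.Coprime m q := ((Nat.Prime.coprime_iff_not_dvd hq).mpr hqm).symm
  have hper : ∀ n, f (n + m) = f n := periodic_of_act_cyclotomic hf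
  have hper' : ∀ n j, f (n + m * j) = f n := by
    intro n j
    induction j with
    | zero => simp
    | succ j ih => rw [Nat.mul_succ, ← add_assoc, hper, ih]
  have hexp : expand ℤ q (cyclotomic m ℤ) = cyclotomic (m * q) ℤ * cyclotomic m ℤ :=
    cyclotomic_expand_eq_cyclotomic_mul hq hqm ℤ
  refine ⟨fun n => t (n : ZMod q) * f n, ?_, ?_⟩
  · -- killed by `Φ_m(X^q)`
    have hA : act (expand ℤ q (cyclotomic m ℤ)) (fun n => t (n : ZMod q) * f n) = 0 := by
      funext n
      rw [act_expand]
      have h0 : act (expand ℤ q (cyclotomic m ℤ)) f = 0 :=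
        act_eq_zero_of_dvd (by rw [hexp]; exact Dvd.intro_left _ rfl) hf
      have h1 := congrFun h0 n
      rw [act_expand] at h1
      have h2 : (cyclotomic m ℤ).sum (fun j c => c • (t ((n + q * j : ℕ) : ZMod q) * f (n + q * j)))
          = t (n : ZMod q) * (cyclotomic m ℤ).sum (fun j c => c • f (n + q * j)) := by
        rw [Polynomial.sum, Polynomial.sum, Finset.mul_sum]
        refine Finset.sum_congr rfl (fun j _ => ?_)
        have : ((n + q * j : ℕ) : ZMod q) = (n : ZMod q) := by
          push_cast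
          simp
        rw [this, mul_smul_comm]
      rw [h2, h1]
      simp
    -- killed by `1 + X^m + ... + X^{(q-1)m}`
    have hB : act (∑ j ∈ range q, (X : ℤ[X]) ^ (m * j)) (fun n => t (n : ZMod q) * f n) = 0 := by
      funext n
      rw [act_finset_sum, Finset.sum_apply]
      simp only [act_X_pow, hper']
      rw [← Finset.sum_mul]
      rw [sum_range_coprime hcop t n, htsum]
      simp
    -- Bezout identity
    have hdvd : cyclotomic m ℤ ∣ (∑ j ∈ range q, (X : ℤ[X]) ^ (m * j)) - C (q : ℤ) := by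
      have : (∑ j ∈ range q, (X : ℤ[X]) ^ (m * j)) - C (q : ℤ)
          = ∑ j ∈ range q, ((X : ℤ[X]) ^ (m * j) - 1) := by
        rw [Finset.sum_sub_distrib]
        simp
      rw [this]
      refine Finset.dvd_sum (fun j _ => ?_)
      refine (cyclotomic.dvd_X_pow_sub_one m ℤ).trans ?_
      rw [pow_mul]
      exact sub_one_dvd_pow_sub_one _ _ 
    obtain ⟨G, hG⟩ := hdvd
    have hid : cyclotomic (m * q) ℤ * C (q : ℤ)
        = cyclotomic (m * q) ℤ * (∑ j ∈ range q, (X : ℤ[X]) ^ (m * j))
          - expand ℤ q (cyclotomic m ℤ) * G := by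
      rw [hexp, mul_assoc, ← hG]
      ring
    have h3 : act (cyclotomic (m * q) ℤ * C (q : ℤ)) (fun n => t (n : ZMod q) * f n) = 0 := by
      rw [hid, act_sub, act_eq_zero_of_dvd (Dvd.intro_left _ rfl) hB,
        act_eq_zero_of_dvd (Dvd.intro _ rfl) hA, sub_zero]
    rw [act_mul', act_C] at h3
    have hq0 : (q : ZMod p) ≠ 0 := by
      intro h0
      rw [ZMod.natCast_eq_zero_iff] at h0
      exact hqp (((Nat.prime_dvd_prime_iff_eq hp.out hq).mp h0).symm)
    funext n
    have h5 := congrFun h3 n
    simp only [Pi.smul_apply, Pi.zero_apply, zsmul_eq_mul] at h5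
    rcases mul_eq_zero.mp h5 with h6 | h6
    · exact absurd (by simpa using h6) hq0
    · simpa using h6
  · intro c hc
    have hre : ∀ (g : ℕ → ℂ), ∑ n ∈ range (m * q), g n
        = ∑ b ∈ range m, ∑ j ∈ range q, g (b + m * j) := by
      intro g
      rw [mul_comm m q]
      exact sum_range_mul_reindex g m q
    rw [hre]
    have h1 : ∀ b ∈ range m, ∑ j ∈ range q,
        ZMod.stdAddChar (c * (t ((b + m * j : ℕ) : ZMod q) * f (b + m * j)))
        = ∑ a : ZMod q, ZMod.stdAddChar (c * t a * f b) := by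
      intro b _
      simp only [hper']
      rw [sum_range_coprime hcop (fun a => (ZMod.stdAddChar (c * (t a * f b)) : ℂ)) b]
      refine Finset.sum_congr rfl (fun a _ => ?_)
      rw [mul_assoc]
    rw [Finset.sum_congr rfl h1, Finset.sum_comm]
    refine Finset.sum_eq_zero (fun a _ => ?_)
    exact hsum (c * t a) (hc.mul (isUnit_iff_ne_zero.mpr (ht a)))

end

end Pool.Agent.Work.MP_086516_nt
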